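import Pool.Agent.H61.FM.Targets

/-!
# Row KR1 of the board `fmc_modules`: bounds for one half of the kernel
-/

set_option autoImplicit false

open MeasureTheory Set Filter
open scoped Real Topology

namespace Pool.Agent.H21.FM

open Pool.Agent.H31.CN Pool.Agent.H89.FM Pool.Agent.H61.FM

/-- powers times exponentials -/
theorem pow_exp_le (a w T : ℝ) (ha : 0 ≤ a) (ha3 : a ≤ 3) (hw : 0 < w) (hT : 1 ≤ T) :
    w ^ a * Real.exp (-(4 * w / T)) ≤ T ^ 3 := by
  have hT0 : 0 < T := by linarith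
  obtain ⟨y, hy⟩ : ∃ y, y = w / T := ⟨_, rfl⟩
  have hy0 : 0 < y := by rw [hy]; positivity
  have hwy : w = T * y := by rw [hy]; field_simp
  have e1 : -(4 * w / T) = -(4 * y) := by rw [hy]; ring
  rw [e1, hwy, Real.mul_rpow hT0.le hy0.le]
  have h1 : T ^ a ≤ T ^ 3 := by
    have h := Real.rpow_le_rpow_of_exponent_le hT ha3
    have e : (T : ℝ) ^ (3 : ℝ) = T ^ 3 := by
      rw [← Real.rpow_natCast]
      norm_num
    rwa [e] at h
  have h2 : y ^ a ≤ 1 + y ^ 3 := by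
    rcases le_total y 1 with h | h
    · have h3 := Real.rpow_le_one hy0.le h ha
      have h4 : 0 ≤ y ^ 3 := by positivity
      linarith
    · have h3 := Real.rpow_le_rpow_of_exponent_le h ha3
      have e : (y : ℝ) ^ (3 : ℝ) = y ^ 3 := by
        rw [← Real.rpow_natCast]
        norm_num
      rw [e] at h3
      linarith
  have h3 : (1 + y ^ 3) * Real.exp (-(4 * y)) ≤ 1 := by
    have h4 : 1 + y ^ 3 ≤ Real.exp (4 * y) := by
      have h5 := Real.add_one_le_exp y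
      have h6 : (y + 1) ^ 4 ≤ Real.exp y ^ 4 := pow_le_pow_left₀ (by linarith) h5 4
      have h7 : Real.exp y ^ 4 = Real.exp (4 * y) := by
        rw [← Real.exp_nat_mul]
        norm_num
      rw [h7] at h6
      refine le_trans ?_ h6
      nlinarith [pow_pos hy0 2, pow_pos hy0 3, pow_pos hy0 4]
    rw [Real.exp_neg, ← div_eq_mul_inv, div_le_one (Real.exp_pos _)]
    exact h4
  have h4 : y ^ a * Real.exp (-(4 * y)) ≤ 1 :=
    (mul_le_mul_of_nonneg_right h2 (Real.exp_pos _).le).trans h3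
  calc T ^ a * y ^ a * Real.exp (-(4 * y)) = T ^ a * (y ^ a * Real.exp (-(4 * y))) := by ring
    _ ≤ T ^ a * 1 := mul_le_mul_of_nonneg_left h4 (by positivity)
    _ = T ^ a := mul_one _
    _ ≤ T ^ 3 := h1

theorem phc_bound (τ : ℂ) (T w : ℝ) (hτ : ‖τ‖ = 1) (hT : 1 ≤ T) (hτT : 1 ≤ T * τ.re)
    (hw : 0 < w) : ‖phc (τ * w)‖ ≤ (40 * w ^ 2 + 13 * w) * Real.exp (-(6 * w / T)) := by
  have hT0 : 0 < T := by linarith
  have hn : ‖τ * (w : ℂ)‖ = w := by
    rw [norm_mul, hτ, one_mul, Complex.norm_real, Real.norm_of_nonneg hw.le]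
  have hre : (τ * (w : ℂ)).re = τ.re * w := by simp
  unfold phc
  rw [norm_mul, Complex.norm_exp]
  have h1 : ‖4 * (π : ℂ) ^ 2 * (τ * w) ^ 2 - 4 * π * (τ * w)‖ ≤ 40 * w ^ 2 + 13 * w := by
    refine (norm_sub_le _ _).trans ?_
    rw [norm_mul, norm_mul, norm_mul, norm_mul, norm_pow, norm_pow, hn, Complex.norm_real,
      Real.norm_of_nonneg Real.pi_pos.le]
    have h2 : ‖(4 : ℂ)‖ = 4 := by simp
    rw [h2]
    have h3 : π < 3.15 := Real.pi_lt_d2
    have h4 : π ^ 2 ≤ 10 := by nlinarith [Real.pi_pos]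
    have h5 : 4 * π ^ 2 * w ^ 2 ≤ 40 * w ^ 2 := by nlinarith [sq_nonneg w]
    have h6 : 4 * π * w ≤ 13 * w := by nlinarith
    linarith
  have h2 : (-(2 * (π : ℂ) * (τ * w))).re = -(2 * π * (τ.re * w)) := by
    rw [Complex.neg_re]
    congr 1
    have e : (2 * (π : ℂ) * (τ * w)) = ((2 * π : ℝ) : ℂ) * (τ * w) := by push_cast; ring
    rw [e, Complex.re_ofReal_mul, hre]
  rw [h2]
  have h3 : Real.exp (-(2 * π * (τ.re * w))) ≤ Real.exp (-(6 * w / T)) := by
    apply Real.exp_le_exp.2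
    have h4 : 3 < π := Real.pi_gt_three
    have h5 : 1 / T ≤ τ.re := by
      rw [div_le_iff₀ hT0]
      linarith
    have h6 : 0 < 1 / T := by positivity
    have h7 : 6 * w / T = 6 * w * (1 / T) := by ring
    have h8 : 6 * w * (1 / T) ≤ 6 * w * τ.re := mul_le_mul_of_nonneg_left h5 (by positivity)
    have h9 : 6 * w * τ.re ≤ 2 * π * (τ.re * w) := by
      have h10 : 0 ≤ τ.re * w := mul_nonneg (h6.le.trans h5) hw.le
      nlinarith
    linarith
  exact mul_le_mul h1 h3 (Real.exp_pos _).le (by positivity)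

/-- the integrand after the substitution -/
noncomputable def hh (τ s : ℂ) (w : ℝ) : ℂ := phc (τ * w) * (τ * w) ^ s / w

theorem cpow_real_mul (z s : ℂ) (r : ℝ) (hz : z ≠ 0) (hr : 0 < r) :
    (z * r) ^ s = z ^ s * (r : ℂ) ^ s := by
  have hr0 : (r : ℂ) ≠ 0 := by exact_mod_cast hr.ne'
  rw [Complex.cpow_def_of_ne_zero (mul_ne_zero hz hr0), Complex.cpow_def_of_ne_zero hz,
    Complex.cpow_def_of_ne_zero hr0, Complex.log_mul_ofReal r hr z hz, ← Complex.exp_add,
    Complex.ofReal_log hr.le]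
  congr 1
  ring

theorem hh_bound (τ s : ℂ) (T w : ℝ) (hτ : ‖τ‖ = 1) (hT : 1 ≤ T) (hτT : 1 ≤ T * τ.re)
    (hs : |s.re - 1 / 2| ≤ 1 / 8) (hw : 0 < w) :
    ‖hh τ s w‖ ≤ 53 * T ^ 3 * ‖τ ^ s‖ * Real.exp (-(2 / T) * w) := by
  have hT0 : 0 < T := by linarith
  have hτ0 : τ ≠ 0 := by
    rintro rfl
    simp at hτ
  obtain ⟨hs1, hs2⟩ := abs_le.1 hs
  unfold hh
  rw [norm_div, norm_mul, cpow_real_mul τ s w hτ0 hw, norm_mul,
    Complex.norm_cpow_eq_rpow_re_of_pos hw, Complex.norm_real, Real.norm_of_nonneg hw.le]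
  have h1 := phc_bound τ T w hτ hT hτT hw
  have h2 := pow_exp_le (s.re + 1) w T (by linarith) (by linarith) hw hT
  have h3 := pow_exp_le s.re w T (by linarith) (by linarith) hw hT
  have e1 : w ^ (s.re + 1) = w ^ s.re * w := by
    rw [Real.rpow_add hw, Real.rpow_one]
  rw [e1] at h2
  have e2 : Real.exp (-(6 * w / T)) = Real.exp (-(4 * w / T)) * Real.exp (-(2 / T) * w) := by
    rw [← Real.exp_add]
    congr 1
    ring
  rw [div_le_iff₀ hw]
  have h4 : ‖phc (τ * w)‖ * (‖τ ^ s‖ * w ^ s.re) ≤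
      (40 * w ^ 2 + 13 * w) * Real.exp (-(6 * w / T)) * (‖τ ^ s‖ * w ^ s.re) :=
    mul_le_mul_of_nonneg_right h1 (by positivity)
  refine h4.trans ?_
  rw [e2]
  obtain ⟨E, hE⟩ : ∃ E, E = Real.exp (-(4 * w / T)) := ⟨_, rfl⟩
  obtain ⟨E', hE'⟩ : ∃ E, E = Real.exp (-(2 / T) * w) := ⟨_, rfl⟩
  have hE'0 : 0 < E' := by rw [hE']; exact Real.exp_pos _
  rw [← hE] at h2 h3 ⊢
  rw [← hE']
  have h5 : 40 * (w ^ s.re * w * E) + 13 * (w ^ s.re * E) ≤ 53 * T ^ 3 := by linarith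
  calc (40 * w ^ 2 + 13 * w) * (E * E') * (‖τ ^ s‖ * w ^ s.re)
      = (40 * (w ^ s.re * w * E) + 13 * (w ^ s.re * E)) * (‖τ ^ s‖ * E' * w) := by ring
    _ ≤ 53 * T ^ 3 * (‖τ ^ s‖ * E' * w) := mul_le_mul_of_nonneg_right h5 (by positivity)
    _ = 53 * T ^ 3 * ‖τ ^ s‖ * E' * w := by ring

theorem hh_cont (τ s : ℂ) (hτ : 0 < τ.re) : ContinuousOn (hh τ s) (Ioi 0) := by
  have h1 : Continuous fun w : ℝ => τ * (w : ℂ) := continuous_const.mul Complex.continuous_ofReal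
  have h2 : Continuous phc := by
    unfold phc
    fun_prop
  intro w hw
  have hw0 : (0 : ℝ) < w := hw
  have hsl : τ * (w : ℂ) ∈ Complex.slitPlane := by
    left
    simp only [Complex.mul_re, Complex.ofReal_re, Complex.ofReal_im, mul_zero, sub_zero]
    positivity
  refine ContinuousAt.continuousWithinAt ?_
  unfold hh
  refine ContinuousAt.div ?_ Complex.continuous_ofReal.continuousAt
    (by exact_mod_cast hw0.ne')
  exact ((h2.comp h1).continuousAt).mul (ContinuousAt.cpow h1.continuousAt continuousAt_const hsl)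

theorem hh_int (τ s : ℂ) (T : ℝ) (hτ : ‖τ‖ = 1) (hT : 1 ≤ T) (hτT : 1 ≤ T * τ.re)
    (hs : |s.re - 1 / 2| ≤ 1 / 8) (r : ℝ) (hr : 0 < r) : IntegrableOn (hh τ s) (Ioi r) := by
  have hT0 : 0 < T := by linarith
  have hτr : 0 < τ.re := by
    by_contra h
    push Not at h
    have : T * τ.re ≤ 0 := mul_nonpos_of_nonneg_of_nonpos hT0.le h
    linarith
  have h1 : IntegrableOn (fun w => 53 * T ^ 3 * ‖τ ^ s‖ * Real.exp (-(2 / T) * w)) (Ioi r) :=
    (exp_neg_integrableOn_Ioi r (b := 2 / T) (by positivity)).const_mul _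
  refine Integrable.mono' h1 ?_ ?_
  · exact ((hh_cont τ s hτr).mono (fun w hw => lt_trans hr hw)).aestronglyMeasurable
      measurableSet_Ioi
  · exact (ae_restrict_iff' measurableSet_Ioi).2 (ae_of_all _ fun w hw =>
      hh_bound τ s T w hτ hT hτT hs (lt_trans hr hw))

theorem hh_norm_int (τ s : ℂ) (T : ℝ) (hτ : ‖τ‖ = 1) (hT : 1 ≤ T) (hτT : 1 ≤ T * τ.re)
    (hs : |s.re - 1 / 2| ≤ 1 / 8) (r : ℝ) (hr : 0 < r) :
    ‖∫ w in Ioi r, hh τ s w‖ ≤ 53 * T ^ 4 * ‖τ ^ s‖ * Real.exp (-(r / T)) := by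
  have hT0 : 0 < T := by linarith
  have h1 : IntegrableOn (fun w => 53 * T ^ 3 * ‖τ ^ s‖ * Real.exp (-(2 / T) * w)) (Ioi r) :=
    (exp_neg_integrableOn_Ioi r (b := 2 / T) (by positivity)).const_mul _
  refine (norm_integral_le_of_norm_le h1 ((ae_restrict_iff' measurableSet_Ioi).2
    (ae_of_all _ fun w hw => hh_bound τ s T w hτ hT hτT hs (lt_trans hr hw)))).trans ?_
  rw [integral_const_mul, integral_exp_mul_Ioi (by
    rw [neg_lt_zero]; positivity) r]
  have e1 : -Real.exp (-(2 / T) * r) / -(2 / T) = T / 2 * Real.exp (-(2 / T) * r) := by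
    field_simp
  rw [e1]
  have h2 : Real.exp (-(2 / T) * r) ≤ Real.exp (-(r / T)) := by
    apply Real.exp_le_exp.2
    have : 0 < r / T := by positivity
    have e : -(2 / T) * r = -(2 * (r / T)) := by ring
    rw [e]
    linarith
  calc 53 * T ^ 3 * ‖τ ^ s‖ * (T / 2 * Real.exp (-(2 / T) * r))
      ≤ 53 * T ^ 3 * ‖τ ^ s‖ * (T * Real.exp (-(r / T))) := by
        refine mul_le_mul_of_nonneg_left ?_ (by positivity)
        exact mul_le_mul (by linarith) h2 (Real.exp_pos _).le hT0.le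
    _ = 53 * T ^ 4 * ‖τ ^ s‖ * Real.exp (-(r / T)) := by ring

/-- the substitution -/
theorem integrand_eq (τ s : ℂ) (hτ0 : τ ≠ 0) (r u : ℝ) (hr : 0 < r) (hu : 0 < u) :
    phc (τ * u * r) * (τ * u) ^ s / u = (r : ℂ) * (r : ℂ) ^ (-s) * hh τ s (u * r) := by
  have hr0 : (r : ℂ) ≠ 0 := by exact_mod_cast hr.ne'
  have hu0 : (u : ℂ) ≠ 0 := by exact_mod_cast hu.ne'
  unfold hh
  have e1 : τ * ((u * r : ℝ) : ℂ) = τ * u * r := by push_cast; ring
  rw [e1, cpow_real_mul (τ * u) s r (mul_ne_zero hτ0 hu0) hr, Complex.cpow_neg]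
  have h1 : (r : ℂ) ^ s ≠ 0 := by
    rw [Complex.cpow_def_of_ne_zero hr0]
    exact Complex.exp_ne_zero _
  push_cast
  field_simp

theorem kf_eq (τ s : ℂ) (hτ0 : τ ≠ 0) (r : ℝ) (hr : 0 < r) :
    kf τ s r = (r : ℂ) ^ (-s) * ∫ w in Ioi r, hh τ s w := by
  have hr0 : (r : ℂ) ≠ 0 := by exact_mod_cast hr.ne'
  unfold kf
  have h1 : ∫ u in Ioi (1 : ℝ), phc (τ * u * r) * (τ * u) ^ s / u =
      ∫ u in Ioi (1 : ℝ), (r : ℂ) * (r : ℂ) ^ (-s) * hh τ s (u * r) :=
    setIntegral_congr_fun measurableSet_Ioi fun u hu =>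
      integrand_eq τ s hτ0 r u hr (lt_trans one_pos hu)
  rw [h1, integral_const_mul, integral_comp_mul_right_Ioi (hh τ s) 1 hr, one_mul]
  rw [Complex.real_smul]
  push_cast
  field_simp

theorem pf_KR1 : T_KR1 := by
  refine ⟨53, 4, by norm_num, ?_⟩
  intro τ s T hτ hT hτT hs r hr
  have hT0 : 0 < T := by linarith
  have hτr : 0 < τ.re := by
    by_contra h
    push Not at h
    have : T * τ.re ≤ 0 := mul_nonpos_of_nonneg_of_nonpos hT0.le h
    linarith
  have hτ0 : τ ≠ 0 := by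
    rintro rfl
    simp at hτ
  have hr0 : (r : ℂ) ≠ 0 := by exact_mod_cast hr.ne'
  obtain ⟨hs1, hs2⟩ := abs_le.1 hs
  refine ⟨?_, ?_, ?_, ?_⟩
  · have h1 : IntegrableOn (fun u : ℝ => hh τ s (u * r)) (Ioi 1) := by
      rw [integrableOn_Ioi_comp_mul_right_iff (hh τ s) 1 hr, one_mul]
      exact hh_int τ s T hτ hT hτT hs r hr
    have h2 : IntegrableOn (fun u : ℝ => (r : ℂ) * (r : ℂ) ^ (-s) * hh τ s (u * r)) (Ioi 1) :=
      h1.const_mul _
    refine h2.congr_fun ?_ measurableSet_Ioi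
    intro u hu
    exact (integrand_eq τ s hτ0 r u hr (lt_trans one_pos hu)).symm
  · rw [kf_eq τ s hτ0 r hr, norm_mul, Complex.norm_cpow_eq_rpow_re_of_pos hr, Complex.neg_re]
    have h1 := hh_norm_int τ s T hτ hT hτT hs r hr
    calc r ^ (-s.re) * ‖∫ w in Ioi r, hh τ s w‖
        ≤ r ^ (-s.re) * (53 * T ^ 4 * ‖τ ^ s‖ * Real.exp (-(r / T))) :=
          mul_le_mul_of_nonneg_left h1 (by positivity)
      _ = 53 * T ^ 4 * ‖τ ^ s‖ * r ^ (-s.re) * Real.exp (-(r / T)) := by ring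
  · -- the derivative
    have hr2 : 0 < r / 2 := by positivity
    have hG : HasDerivAt (fun ρ : ℝ => ∫ w in Ioi ρ, hh τ s w) (-(hh τ s r)) r := by
      have h1 : HasDerivAt (fun ρ : ℝ => ∫ w in (r / 2)..ρ, hh τ s w) (hh τ s r) r := by
        have hc : ContinuousOn (hh τ s) (Ioi 0) := hh_cont τ s hτr
        refine intervalIntegral.integral_hasDerivAt_right ?_ ?_ ?_
        · refine ContinuousOn.intervalIntegrable (hc.mono ?_)
          intro w hw
          rw [uIcc_of_le (by linarith)] at hw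
          exact lt_of_lt_of_le hr2 hw.1
        · exact hc.stronglyMeasurableAtFilter isOpen_Ioi r hr
        · exact hc.continuousAt (Ioi_mem_nhds hr)
      have h2 : HasDerivAt (fun ρ : ℝ => (∫ w in Ioi (r / 2), hh τ s w) -
          ∫ w in (r / 2)..ρ, hh τ s w) (0 - hh τ s r) r := (hasDerivAt_const _ _).sub h1
      rw [zero_sub] at h2
      refine h2.congr_of_eventuallyEq ?_
      filter_upwards [Ioi_mem_nhds hr] with ρ hρ
      rw [← intervalIntegral.integral_interval_add_Ioi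
        (hh_int τ s T hτ hT hτT hs (r / 2) hr2) (hh_int τ s T hτ hT hτT hs ρ hρ)]
      ring
    have hP : HasDerivAt (fun ρ : ℝ => (ρ : ℂ) ^ (-s)) (-s * (r : ℂ) ^ (-s - 1) * 1) r := by
      have h1 : HasDerivAt (fun z : ℂ => z ^ (-s)) (-s * (r : ℂ) ^ (-s - 1) * 1) (r : ℂ) :=
        (hasDerivAt_id (r : ℂ)).cpow_const (Complex.ofReal_mem_slitPlane.2 hr)
      exact h1.comp_ofReal
    have hm := hP.mul hG
    have hk : HasDerivAt (kf τ s) (-s * (r : ℂ) ^ (-s - 1) * 1 * (∫ w in Ioi r, hh τ s w) +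
        (r : ℂ) ^ (-s) * -(hh τ s r)) r := by
      refine hm.congr_of_eventuallyEq ?_
      filter_upwards [Ioi_mem_nhds hr] with ρ hρ
      exact kf_eq τ s hτ0 ρ hρ
    have e : -s * (r : ℂ) ^ (-s - 1) * 1 * (∫ w in Ioi r, hh τ s w) +
        (r : ℂ) ^ (-s) * -(hh τ s r) = -(s * kf τ s r + phc (τ * r) * τ ^ s) / r := by
      rw [kf_eq τ s hτ0 r hr, Complex.cpow_sub _ _ hr0, Complex.cpow_one]
      unfold hh
      rw [cpow_real_mul τ s r hτ0 hr, Complex.cpow_neg]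
      have h1 : (r : ℂ) ^ s ≠ 0 := by
        rw [Complex.cpow_def_of_ne_zero hr0]
        exact Complex.exp_ne_zero _
      field_simp
      ring
    rw [← e]
    exact hk
  · have h1 := phc_bound τ T r hτ hT hτT hr
    have h2 := pow_exp_le (s.re + 2) r T (by linarith) (by linarith) hr hT
    have h3 := pow_exp_le (s.re + 1) r T (by linarith) (by linarith) hr hT
    have e1 : r ^ (s.re + 2) = r ^ s.re * r ^ 2 := by
      rw [Real.rpow_add hr]
      norm_num
    have e2 : r ^ (s.re + 1) = r ^ s.re * r := by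
      rw [Real.rpow_add hr, Real.rpow_one]
    rw [e1] at h2
    rw [e2] at h3
    have e3 : Real.exp (-(6 * r / T)) = Real.exp (-(4 * r / T)) * Real.exp (-(2 * r / T)) := by
      rw [← Real.exp_add]
      congr 1
      ring
    have h4 : Real.exp (-(2 * r / T)) ≤ Real.exp (-(r / T)) := by
      apply Real.exp_le_exp.2
      have : 0 < r / T := by positivity
      have e : -(2 * r / T) = -(2 * (r / T)) := by ring
      rw [e]
      linarith
    have h5 : r ^ (-s.re) * r ^ s.re = 1 := by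
      rw [← Real.rpow_add hr]
      simp
    refine h1.trans ?_
    rw [e3]
    obtain ⟨E, hE⟩ : ∃ E, E = Real.exp (-(4 * r / T)) := ⟨_, rfl⟩
    rw [← hE] at h2 h3 ⊢
    have h6 : (40 * r ^ 2 + 13 * r) * (E * Real.exp (-(2 * r / T))) =
        r ^ (-s.re) * (40 * (r ^ s.re * r ^ 2 * E) + 13 * (r ^ s.re * r * E)) *
          Real.exp (-(2 * r / T)) := by
      linear_combination (-(40 * r ^ 2 + 13 * r) * E * Real.exp (-(2 * r / T))) * h5
    rw [h6]
    have h7 : 40 * (r ^ s.re * r ^ 2 * E) + 13 * (r ^ s.re * r * E) ≤ 53 * T ^ 4 := by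
      have h8 : T ^ 3 ≤ T ^ 4 := pow_le_pow_right₀ hT (by norm_num)
      linarith
    calc r ^ (-s.re) * (40 * (r ^ s.re * r ^ 2 * E) + 13 * (r ^ s.re * r * E)) *
          Real.exp (-(2 * r / T))
        ≤ r ^ (-s.re) * (53 * T ^ 4) * Real.exp (-(r / T)) := by
          refine mul_le_mul ?_ h4 (Real.exp_pos _).le (by positivity)
          exact mul_le_mul_of_nonneg_left h7 (by positivity)
      _ = 53 * T ^ 4 * r ^ (-s.re) * Real.exp (-(r / T)) := by ring

end Pool.Agent.H21.FM
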