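import Pool.Agent.H61.FM.Targets
import Pool.Agent.H89.FM.Targets1

/-!
# Row LF1 of the board `fmc_modules`: the twisted `L`-function in terms of the forms
-/

set_option autoImplicit false

open NumberField MeasureTheory
open scoped nonZeroDivisors Real

namespace Pool.Agent.H21.FM

open Pool.Agent.H31.CN Pool.Agent.H89.FM Pool.Agent.H61.FM

theorem cpow_quot (m D : ℕ) (hm : 0 < m) (hD : 0 < D) (s : ℂ) :
    (((m : ℝ) / Real.sqrt D : ℝ) : ℂ) ^ (-s) = (m : ℂ) ^ (-s) * (D : ℂ) ^ (s / 2) := by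
  have hm' : (0 : ℝ) < m := by exact_mod_cast hm
  have hD' : (0 : ℝ) < D := by exact_mod_cast hD
  have hs : 0 < Real.sqrt D := Real.sqrt_pos.2 hD'
  have hq : 0 < (m : ℝ) / Real.sqrt D := by positivity
  have h1 : (((m : ℝ) / Real.sqrt D : ℝ) : ℂ) ≠ 0 := by exact_mod_cast hq.ne'
  have h2 : (m : ℂ) ≠ 0 := by exact_mod_cast hm.ne'
  have h3 : (D : ℂ) ≠ 0 := by exact_mod_cast hD.ne'
  rw [Complex.cpow_def_of_ne_zero h1, Complex.cpow_def_of_ne_zero h2,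
    Complex.cpow_def_of_ne_zero h3, ← Complex.exp_add, ← Complex.ofReal_log hq.le,
    Real.log_div hm'.ne' hs.ne', Real.log_sqrt hD'.le, Complex.ofReal_sub, Complex.ofReal_div,
    Complex.ofReal_log hm'.le, Complex.ofReal_log hD'.le]
  congr 1
  push_cast
  ring

open Classical in
theorem pf_LF1 (hFLS : Pool.Agent.H89.FM.T_FLS) (hEZA : T_EZA) (hTWS : T_TWS) (hLIN : T_LIN)
    (hLSU : T_LSU) (hQZV : T_QZV) : T_LF1 := by
  intro K _ _ D hK R ψ F hF n hn s hs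
  have hn1 : 1 ≤ n := Nat.one_le_iff_ne_zero.2 hn.ne_zero
  have hD := hK.pos
  -- step 1
  have step1 : ∀ c, ∑ L ∈ (Ls n).filter (fun L => Dv n L (R.Q c)),
      Ez s n L (zx (R.Q c)) (zy (R.Q c)) = ∑ P ∈ Nn K n,
      Ez s n (lt K (R.α c) (R.β c) ((P : Ideal (𝓞 K)) * R.I c)) (zx (R.Q c)) (zy (R.Q c)) := by
    intro c
    symm
    refine Finset.sum_bij (fun P _ => lt K (R.α c) (R.β c) ((P : Ideal (𝓞 K)) * R.I c)) ?_ ?_ ?_ ?_
    · intro P hP
      rw [mem_Nn] at hP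
      obtain ⟨h1, h2, -⟩ := hLIN K D R.σ hK (R.I c) P (R.α c) (R.β c) (R.Q c) (R.ob c)
      rw [hP] at h1 h2
      exact Finset.mem_filter.2 ⟨((hFLS n _ hn1).1).2 h1, h2⟩
    · intro P _ P' _ he
      obtain ⟨-, -, h3⟩ := hLIN K D R.σ hK (R.I c) P' (R.α c) (R.β c) (R.Q c) (R.ob c)
      exact h3 P he
    · intro L hL
      rw [Finset.mem_filter] at hL
      obtain ⟨P, hP, hPL⟩ := hLSU K D R.σ hK (R.I c) (R.α c) (R.β c) (R.Q c) (R.ob c) n L hn
        (((hFLS n _ hn1).1).1 hL.1) hL.2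
      exact ⟨P, mem_Nn.2 hP, hPL⟩
    · intro P _
      rfl
  -- step 2
  have step2 : ∀ (c : ClassGroup (𝓞 K)) (P : (Ideal (𝓞 K))⁰), ∃ a : ℂ, nm P = n →
      HasSum (fun J : (Ideal (𝓞 K))⁰ => if ClassGroup.mk0 J = (c * ClassGroup.mk0 P)⁻¹ then
        (((nm J : ℝ) / Real.sqrt D : ℝ) : ℂ) ^ (-s) else 0) (a / un K) ∧
      Ez s n (lt K (R.α c) (R.β c) ((P : Ideal (𝓞 K)) * R.I c)) (zx (R.Q c)) (zy (R.Q c)) =
        gG s * a := by
    intro c P
    by_cases hP : nm P = n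
    · obtain ⟨h1, h2, -⟩ := hLIN K D R.σ hK (R.I c) P (R.α c) (R.β c) (R.Q c) (R.ob c)
      obtain ⟨hQ1, hQ2⟩ := R.fd c
      have hdsc : 0 < dsc (R.Q c) := by
        rw [hQ2]
        exact_mod_cast hD
      have hy := (hQZV (R.Q c) 0 hQ1 hdsc).1
      obtain ⟨-, h3⟩ := hEZA n (lt K (R.α c) (R.β c) ((P : Ideal (𝓞 K)) * R.I c)) (zx (R.Q c))
        (zy (R.Q c)) hn1 (by rw [h1, hP]) hy
      obtain ⟨a, ha, haE⟩ := h3 s hs
      refine ⟨a, fun _ => ⟨?_, haE⟩⟩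
      have h4 := hTWS K D R.σ hK (R.I c) P (R.α c) (R.β c) (R.Q c) (R.ob c)
        (fun r => ((r / Real.sqrt D : ℝ) : ℂ) ^ (-s)) a (by
          refine ha.congr_fun ?_
          intro v
          split_ifs with h5
          · rw [(hQZV (R.Q c) v hQ1 hdsc).2, hQ2, hP]
            congr 2
            push_cast
            ring
          · rfl)
      rw [R.cl c] at h4
      exact h4
    · exact ⟨0, fun h => absurd h hP⟩
  choose a ha using step2
  -- step 3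
  have step3 : ∀ P ∈ Nn K n, pv ψ P * ((D : ℂ) ^ (s / 2) * F s) =
      ∑ c, (((ψ c)⁻¹ : ℂˣ) : ℂ) * (a c P / un K) := by
    intro P hP
    rw [mem_Nn] at hP
    have h1 : HasSum (fun J : (Ideal (𝓞 K))⁰ => ∑ c, (((ψ c)⁻¹ : ℂˣ) : ℂ) *
        (if ClassGroup.mk0 J = (c * ClassGroup.mk0 P)⁻¹ then
          (((nm J : ℝ) / Real.sqrt D : ℝ) : ℂ) ^ (-s) else 0))
        (∑ c, (((ψ c)⁻¹ : ℂˣ) : ℂ) * (a c P / un K)) :=
      hasSum_sum fun c _ => ((ha c P hP).1).mul_left _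
    have h2 := (hF.2 s hs).mul_left (pv ψ P * (D : ℂ) ^ (s / 2))
    have h3 : (fun J : (Ideal (𝓞 K))⁰ => ∑ c, (((ψ c)⁻¹ : ℂˣ) : ℂ) *
        (if ClassGroup.mk0 J = (c * ClassGroup.mk0 P)⁻¹ then
          (((nm J : ℝ) / Real.sqrt D : ℝ) : ℂ) ^ (-s) else 0)) =
        fun J => pv ψ P * (D : ℂ) ^ (s / 2) * (((ψ (ClassGroup.mk0 J) : ℂˣ) : ℂ) *
          (Ideal.absNorm (J : Ideal (𝓞 K)) : ℂ) ^ (-s)) := by
      funext J
      have hJ : 0 < nm J := Ideal.absNorm_pos_of_nonZeroDivisors J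
      rw [Finset.sum_eq_single ((ClassGroup.mk0 J * ClassGroup.mk0 P)⁻¹)]
      · have e1 : ClassGroup.mk0 J = ((ClassGroup.mk0 J * ClassGroup.mk0 P)⁻¹ *
            ClassGroup.mk0 P)⁻¹ := by
          rw [mul_inv_rev, inv_inv, mul_comm (ClassGroup.mk0 J), inv_mul_cancel_left]
        rw [if_pos e1, cpow_quot _ _ hJ hD, map_inv, inv_inv, map_mul]
        unfold pv nm
        push_cast
        ring
      · intro c _ hc
        rw [if_neg, mul_zero]
        intro h4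
        apply hc
        rw [h4, mul_inv, inv_inv]
        group
      · intro h4
        exact absurd (Finset.mem_univ _) h4
    rw [h3] at h1
    rw [h1.unique h2]
    ring
  have step4 : lm ψ n * (gG s * (D : ℂ) ^ (s / 2) * F s) =
      ∑ P ∈ Nn K n, gG s * (pv ψ P * ((D : ℂ) ^ (s / 2) * F s)) := by
    unfold lm
    rw [Finset.sum_mul]
    exact Finset.sum_congr rfl fun P _ => by ring
  rw [step4, Finset.mul_sum]
  calc ∑ P ∈ Nn K n, gG s * (pv ψ P * ((D : ℂ) ^ (s / 2) * F s))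
      = ∑ P ∈ Nn K n, ∑ c, gG s * ((((ψ c)⁻¹ : ℂˣ) : ℂ) * (a c P / un K)) := by
        refine Finset.sum_congr rfl fun P hP => ?_
        rw [step3 P hP, Finset.mul_sum]
    _ = ∑ c, ∑ P ∈ Nn K n, gG s * ((((ψ c)⁻¹ : ℂˣ) : ℂ) * (a c P / un K)) := Finset.sum_comm
    _ = _ := by
        refine Finset.sum_congr rfl fun c _ => ?_
        rw [step1 c, Finset.mul_sum, Finset.mul_sum]
        refine Finset.sum_congr rfl fun P hP => ?_
        rw [mem_Nn] at hP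
        rw [(ha c P hP).2, div_eq_mul_inv]
        ring

end Pool.Agent.H21.FM
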