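import Pool.Agent.H61.FM.Targets
import Pool.Agent.H46.CN.NF

/-!
# Row LSU of the board `fmc_modules`: lattices of squarefree index belong to ideals
-/

set_option autoImplicit false

open NumberField
open scoped nonZeroDivisors

namespace Pool.Agent.H21.FM

open Pool.Agent.H31.CN Pool.Agent.H89.FM Pool.Agent.H61.FM

/-- Two vectors of a lattice of index divisible by `p` are dependent modulo `p`. -/
theorem dvd_det (L : AddSubgroup (ℤ × ℤ)) (n : ℕ) (hn : n ≠ 0) (hL : L.index = n) (p : ℕ)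
    (hp : p.Prime) (hpn : p ∣ n) (v₀ v : ℤ × ℤ) (hv₀ : v₀ ∈ L) (hv : v ∈ L) :
    (p : ℤ) ∣ v₀.1 * v.2 - v₀.2 * v.1 := by
  have : Fact p.Prime := ⟨hp⟩
  have hcard : Nat.card ((ℤ × ℤ) ⧸ L) = n := by rw [← AddSubgroup.index_eq_card, hL]
  have : Finite ((ℤ × ℤ) ⧸ L) := Nat.finite_of_card_ne_zero (by rw [hcard]; exact hn)
  obtain ⟨x, hx⟩ := exists_prime_addOrderOf_dvd_card' (G := (ℤ × ℤ) ⧸ L) p
    (by rw [hcard]; exact hpn)
  obtain ⟨w, rfl⟩ := QuotientAddGroup.mk_surjective x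
  rw [← hx, addOrderOf_dvd_iff_zsmul_eq_zero, ← QuotientAddGroup.mk_zsmul,
    QuotientAddGroup.eq_zero_iff]
  have e : (v₀.1 * v.2 - v₀.2 * v.1) • w =
      (w.1 * v.2 - w.2 * v.1) • v₀ + (v₀.1 * w.2 - v₀.2 * w.1) • v := by
    refine Prod.ext ?_ ?_
    · simp only [Prod.smul_fst, Prod.fst_add, smul_eq_mul]
      ring
    · simp only [Prod.smul_snd, Prod.snd_add, smul_eq_mul]
      ring
  rw [e]
  exact L.add_mem (L.zsmul_mem hv₀ _) (L.zsmul_mem hv _)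

section

variable {K : Type} [Field K] [NumberField K]

/-- the element of the vector `v` -/
def gam (α β : 𝓞 K) (v : ℤ × ℤ) : 𝓞 K := (v.1 : 𝓞 K) * α + (v.2 : 𝓞 K) * β

theorem norm_p (D : ℕ) (σ : K →+* ℂ) (hK : IQ K D) (I : Ideal (𝓞 K)) (α β : 𝓞 K) (Q : QF)
    (h : OB K σ I α β Q) (p : ℕ) : Ideal.absNorm (Ideal.span {(p : 𝓞 K)}) = p ^ 2 := by
  have h1 := Pool.Agent.H46.CN.absNorm_span K σ hK.rk
    (Pool.Agent.H46.CN.OB_im K σ I α β Q h) (p : 𝓞 K)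
  have h2 : σ (((p : 𝓞 K) : 𝓞 K) : K) = (p : ℂ) := by
    have h3 : (((p : 𝓞 K) : 𝓞 K) : K) = (p : K) := map_natCast (algebraMap (𝓞 K) K) p
    rw [h3, map_natCast]
  rw [h2, Complex.normSq_natCast] at h1
  have h3 : (Ideal.absNorm (Ideal.span {(p : 𝓞 K)}) : ℝ) = ((p ^ 2 : ℕ) : ℝ) := by
    rw [h1]
    push_cast
    ring
  exact_mod_cast h3

/-- The local step. -/
theorem local_step (hVIG : T_VIG) (D : ℕ) (σ : K →+* ℂ) (hK : IQ K D) (I : (Ideal (𝓞 K))⁰)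
    (α β : 𝓞 K) (Q : QF) (hOB : OB K σ I α β Q) (n : ℕ) (L : AddSubgroup (ℤ × ℤ))
    (hn : n ≠ 0) (hL : L.index = n) (hDv : Dv n L Q) (p : ℕ) (hp : p.Prime) (hpn : p ∣ n) :
    ∃ PP : Ideal (𝓞 K), PP ≠ ⊤ ∧ (p : 𝓞 K) ∈ PP ∧ ∀ v ∈ L, gam α β v ∈ PP * (I : Ideal (𝓞 K)) := by
  have hmem : ∀ v, gam α β v ∈ (I : Ideal (𝓞 K)) := fun v => (hOB.mem _).2 ⟨v, rfl⟩
  by_cases hall : ∀ v ∈ L, (p : ℤ) ∣ v.1 ∧ (p : ℤ) ∣ v.2
  · have h1 : Ideal.span {(p : 𝓞 K)} ≠ ⊤ := by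
      intro h2
      have h3 := norm_p D σ hK I α β Q hOB p
      rw [h2, Ideal.absNorm_top] at h3
      have h4 : 1 < p ^ 2 := Nat.one_lt_pow (by norm_num) hp.one_lt
      omega
    obtain ⟨PP, hPP, hle⟩ := Ideal.exists_le_maximal _ h1
    have hpm : (p : 𝓞 K) ∈ PP := hle (Ideal.mem_span_singleton_self _)
    refine ⟨PP, hPP.ne_top, hpm, fun v hv => ?_⟩
    obtain ⟨⟨a, ha⟩, b, hb⟩ := hall v hv
    have e : gam α β v = (p : 𝓞 K) * gam α β (a, b) := by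
      unfold gam
      rw [ha, hb]
      push_cast
      ring
    rw [e]
    exact Ideal.mul_mem_mul hpm (hmem _)
  · push Not at hall
    obtain ⟨v₀, hv₀, hv₀p⟩ := hall
    have hv₀0 : v₀ ≠ 0 := by
      rintro rfl
      exact hv₀p (dvd_zero _) (dvd_zero _)
    obtain ⟨-, b, hb1, hb2, -, -⟩ := hVIG K D σ hK I α β Q hOB
    have hpb : (p : ℤ) ∣ ((Ideal.absNorm (b v₀ : Ideal (𝓞 K)) : ℕ) : ℤ) := by
      have h1 := (hb2 v₀ hv₀0).2
      unfold nm at h1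
      rw [h1]
      exact (Int.natCast_dvd_natCast.2 hpn).trans (hDv v₀ hv₀)
    obtain ⟨PP, hPP, hPu, hPb⟩ := Ideal.exists_isMaximal_dvd_of_dvd_absNorm
      (Nat.prime_iff_prime_int.1 hp) (b v₀ : Ideal (𝓞 K)) hpb
    have hpm : (p : 𝓞 K) ∈ PP := by
      have h1 : (p : ℤ) ∈ Ideal.under ℤ PP := by
        rw [hPu]
        exact Ideal.mem_span_singleton_self _
      have h2 : algebraMap ℤ (𝓞 K) (p : ℤ) ∈ PP := h1
      simpa using h2
    have hg0 : gam α β v₀ ∈ PP * (I : Ideal (𝓞 K)) := by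
      have h1 : gam α β v₀ ∈ Ideal.span {gam α β v₀} := Ideal.mem_span_singleton_self _
      unfold gam at h1
      rw [hb1 v₀ hv₀0] at h1
      exact Ideal.mul_mono_left (Ideal.le_of_dvd hPb) h1
    refine ⟨PP, hPP.ne_top, hpm, fun v hv => ?_⟩
    have hpg : (p : 𝓞 K) * gam α β v ∈ PP * (I : Ideal (𝓞 K)) := Ideal.mul_mem_mul hpm (hmem v)
    obtain ⟨e, he⟩ := dvd_det L n hn hL p hp hpn v₀ v hv₀ hv
    have hα : (p : 𝓞 K) * α ∈ PP * (I : Ideal (𝓞 K)) := by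
      have h1 := hmem (1, 0)
      unfold gam at h1
      refine Ideal.mul_mem_mul hpm ?_
      simpa using h1
    have hβ : (p : 𝓞 K) * β ∈ PP * (I : Ideal (𝓞 K)) := by
      have h1 := hmem (0, 1)
      unfold gam at h1
      refine Ideal.mul_mem_mul hpm ?_
      simpa using h1
    -- a multiple of `gam v` prime to `p`
    have hfin : ∀ m : ℤ, ¬ (p : ℤ) ∣ m → (m : 𝓞 K) * gam α β v ∈ PP * (I : Ideal (𝓞 K)) →
        gam α β v ∈ PP * (I : Ideal (𝓞 K)) := by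
      intro m hm hmg
      have hco : IsCoprime (p : ℤ) m :=
        ((Nat.prime_iff_prime_int.1 hp).coprime_iff_not_dvd).2 hm
      obtain ⟨x, y, hxy⟩ := hco
      have e : gam α β v = (x : 𝓞 K) * ((p : 𝓞 K) * gam α β v) +
          (y : 𝓞 K) * ((m : 𝓞 K) * gam α β v) := by
        have h2 : ((x * p + y * m : ℤ) : 𝓞 K) = 1 := by rw [hxy]; simp
        push_cast at h2
        calc gam α β v = ((x : 𝓞 K) * p + y * m) * gam α β v := by rw [h2, one_mul]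
          _ = _ := by ring
      rw [e]
      exact Ideal.add_mem _ (Ideal.mul_mem_left _ _ hpg) (Ideal.mul_mem_left _ _ hmg)
    by_cases h1 : (p : ℤ) ∣ v₀.1
    · have h2 := hv₀p h1
      refine hfin v₀.2 h2 ?_
      have e2 : (v₀.2 : 𝓞 K) * gam α β v = (v.2 : 𝓞 K) * gam α β v₀ -
          (e : 𝓞 K) * ((p : 𝓞 K) * α) := by
        have h3 : ((v₀.1 * v.2 - v₀.2 * v.1 : ℤ) : 𝓞 K) = ((p * e : ℤ) : 𝓞 K) := by rw [he]
        push_cast at h3
        unfold gam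
        linear_combination -α * h3
      rw [e2]
      exact Ideal.sub_mem _ (Ideal.mul_mem_left _ _ hg0) (Ideal.mul_mem_left _ _ hα)
    · refine hfin v₀.1 h1 ?_
      have e2 : (v₀.1 : 𝓞 K) * gam α β v = (v.1 : 𝓞 K) * gam α β v₀ +
          (e : 𝓞 K) * ((p : 𝓞 K) * β) := by
        have h3 : ((v₀.1 * v.2 - v₀.2 * v.1 : ℤ) : 𝓞 K) = ((p * e : ℤ) : 𝓞 K) := by rw [he]
        push_cast at h3
        unfold gam
        linear_combination β * h3
      rw [e2]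
      exact Ideal.add_mem _ (Ideal.mul_mem_left _ _ hg0) (Ideal.mul_mem_left _ _ hβ)

end

theorem pf_LSU (hVIG : T_VIG) (hLIN : T_LIN) : T_LSU := by
  intro K _ _ D σ hK I α β Q hOB n L hsq hL hDv
  have hn : n ≠ 0 := hsq.ne_zero
  have hmem : ∀ v, gam α β v ∈ (I : Ideal (𝓞 K)) := fun v => (hOB.mem _).2 ⟨v, rfl⟩
  obtain ⟨J, hJ⟩ : ∃ J : Ideal (𝓞 K), J = Ideal.span (gam α β '' (L : Set (ℤ × ℤ))) := ⟨_, rfl⟩
  have hJmem : ∀ v ∈ L, gam α β v ∈ J := by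
    intro v hv
    rw [hJ]
    exact Ideal.subset_span ⟨v, hv, rfl⟩
  have hJI : J ≤ I := by
    rw [hJ, Ideal.span_le]
    rintro _ ⟨v, -, rfl⟩
    exact hmem v
  have hJ0 : J ≠ ⊥ := by
    intro h0
    have h1 : L = ⊥ := by
      rw [AddSubgroup.eq_bot_iff_forall]
      intro v hv
      have h2 := hJmem v hv
      rw [h0] at h2
      exact hOB.inj v ((Submodule.mem_bot _).1 h2)
    rw [h1, AddSubgroup.index_bot, Nat.card_eq_zero_of_infinite] at hL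
    exact hn hL.symm
  obtain ⟨P₀, hP₀⟩ := Ideal.dvd_iff_le.2 hJI
  have hP₀0 : P₀ ≠ ⊥ := by
    rintro rfl
    apply hJ0
    rw [hP₀]
    exact mul_zero _
  obtain ⟨P, hP⟩ : ∃ P : (Ideal (𝓞 K))⁰, (P : Ideal (𝓞 K)) = P₀ :=
    ⟨⟨P₀, mem_nonZeroDivisors_of_ne_zero hP₀0⟩, rfl⟩
  have hJP : J = (P : Ideal (𝓞 K)) * I := by
    rw [hP₀, hP, mul_comm]
  obtain ⟨hidx, -, -⟩ := hLIN K D σ hK I P α β Q hOB
  have hLle : L ≤ lt K α β ((P : Ideal (𝓞 K)) * I) := by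
    intro v hv
    have h1 := hJmem v hv
    rw [hJP] at h1
    exact h1
  have hPn : nm P ∣ n := by
    rw [← hidx, ← hL]
    exact AddSubgroup.index_dvd_of_le hLle
  have hI0 : (I : Ideal (𝓞 K)) ≠ 0 := nonZeroDivisors.coe_ne_zero I
  have hnP : n ∣ nm P := by
    rw [← Nat.prod_primeFactors_of_squarefree hsq]
    refine Finset.prod_primes_dvd _ (fun p hp => (Nat.prime_of_mem_primeFactors hp).prime)
      fun p hp => ?_
    have hpp := Nat.prime_of_mem_primeFactors hp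
    obtain ⟨PP, hPP, hpm, hPv⟩ := local_step hVIG D σ hK I α β Q hOB n L hn hL hDv p hpp
      (Nat.dvd_of_mem_primeFactors hp)
    have h1 : J ≤ PP * I := by
      rw [hJ, Ideal.span_le]
      rintro _ ⟨v, hv, rfl⟩
      exact hPv v hv
    have h2 : PP ∣ (P : Ideal (𝓞 K)) := by
      rw [hJP] at h1
      have h3 := Ideal.dvd_iff_le.2 h1
      exact (mul_dvd_mul_iff_right hI0).1 h3
    have h3 : Ideal.absNorm PP ∣ nm P :=
      Ideal.absNorm_dvd_absNorm_of_le (Ideal.le_of_dvd h2)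
    refine dvd_trans ?_ h3
    have h4 : Ideal.absNorm PP ∣ p ^ 2 := by
      rw [← norm_p D σ hK I α β Q hOB p]
      refine Ideal.absNorm_dvd_absNorm_of_le ?_
      rw [Ideal.span_singleton_le_iff_mem]
      exact hpm
    obtain ⟨k, -, hk⟩ := (Nat.dvd_prime_pow hpp).1 h4
    rw [hk]
    refine dvd_pow_self p ?_
    rintro rfl
    rw [pow_zero] at hk
    exact hPP (Ideal.absNorm_eq_one_iff.1 hk)
  have hnm : nm P = n := Nat.dvd_antisymm hPn hnP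
  refine ⟨P, hnm, ?_⟩
  have h1 := AddSubgroup.relIndex_mul_index hLle
  rw [hidx, hnm, hL] at h1
  have h2 : L.relIndex (lt K α β ((P : Ideal (𝓞 K)) * I)) = 1 :=
    Nat.eq_of_mul_eq_mul_right (Nat.pos_of_ne_zero hn) (by rw [h1, one_mul])
  exact le_antisymm (AddSubgroup.relIndex_eq_one.1 h2) hLle

end Pool.Agent.H21.FM
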